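import Mathlib

set_option autoImplicit false

namespace Pool.Agent.Results.MP_0ba87f_co.Fifth

open Finset

/-- the pairs of `[n]` -/
abbrev P (n : ℕ) := {p : Fin n × Fin n // p.1 < p.2}

/-- the edge set of the clique on `U` -/
def clique {n : ℕ} (U : Finset (Fin n)) : Finset (P n) :=
  univ.filter fun p => p.1.1 ∈ U ∧ p.1.2 ∈ U

/-- no two distinct members have a clique (on at least two vertices) as symmetric difference -/
def IsCode {n : ℕ} (F : Finset (Finset (P n))) : Prop :=
  ∀ G₁ ∈ F, ∀ G₂ ∈ F, G₁ ≠ G₂ → ∀ U : Finset (Fin n), 2 ≤ U.card → symmDiff G₁ G₂ ≠ clique U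

def sg (a : ZMod 2) : ℤ := if a = 0 then 1 else -1

lemma sg_add (a b : ZMod 2) : sg (a + b) = sg a * sg b := by revert a b; decide

def Quad {ι : Type} (Q : (ι → ZMod 2) → ZMod 2) : Prop :=
  Q 0 = 0 ∧ ∀ x y z, Q (x + y + z) = Q (x + y) + Q (x + z) + Q (y + z) + Q x + Q y + Q z

lemma shift {ι : Type} [Fintype ι] [DecidableEq ι] (f : (ι → ZMod 2) → ℤ) (u : ι → ZMod 2) :
    ∑ y, f (y + u) = ∑ y, f y :=
  Fintype.sum_equiv (Equiv.addRight u) _ _ fun _ => rfl

lemma char_zero {ι : Type} [Fintype ι] [DecidableEq ι] (Q : (ι → ZMod 2) → ZMod 2)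
    (h : ∀ u v, Q (u + v) = Q u + Q v) (u : ι → ZMod 2) (hu : Q u ≠ 0) : ∑ y, sg (Q y) = 0 := by
  have h1 := shift (fun y => sg (Q y)) u
  have h2 : sg (Q u) = -1 := by simp [sg, hu]
  simp only [h, sg_add, h2, mul_neg, mul_one, Finset.sum_neg_distrib] at h1
  omega

lemma half {ι : Type} [Fintype ι] [DecidableEq ι] (Q : (ι → ZMod 2) → ZMod 2) (hQ : Quad Q) :
    -(Fintype.card (ι → ZMod 2) : ℤ) ≤ 2 * ∑ y, sg (Q y) := by
  by_cases h : ∀ u v, Q (u + v) = Q u + Q v
  · by_cases h0 : ∀ u, Q u = 0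
    · simp [h0, sg]
      have : (0 : ℤ) < 2 ^ Fintype.card ι := by positivity
      linarith
    · push Not at h0
      obtain ⟨u, hu⟩ := h0
      rw [char_zero Q h u hu]; simp
  · push Not at h
    obtain ⟨u, v, huv⟩ := h
    have key : ∀ y, -2 ≤ sg (Q y) + sg (Q (y + u)) + sg (Q (y + v)) + sg (Q (y + (u + v))) := by
      intro y
      rw [← add_assoc, hQ.2 y u v]
      revert huv
      generalize Q y = a; generalize Q (y + u) = b; generalize Q (y + v) = c
      generalize Q (u + v) = d; generalize Q u = e; generalize Q v = f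
      revert a b c d e f; decide
    have h1 := Finset.sum_le_sum (s := univ) fun y _ => key y
    rw [Finset.sum_add_distrib, Finset.sum_add_distrib, Finset.sum_add_distrib,
      shift (fun y => sg (Q y)) u, shift (fun y => sg (Q y)) v,
      shift (fun y => sg (Q y)) (u + v)] at h1
    simp only [Finset.sum_const, Finset.card_univ, nsmul_eq_mul] at h1
    omega

lemma quarter {ι : Type} [Fintype ι] [DecidableEq ι] (Q : (ι → ZMod 2) → ZMod 2) (hQ : Quad Q)
    (u v : ι → ZMod 2) (hu : Q u = 0) (hv : Q v = 0) (huv : Q (u + v) = 1) :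
    -(Fintype.card (ι → ZMod 2) : ℤ) ≤ 4 * ∑ y, sg (Q y) := by
  have add : ∀ w y z, Q w = 0 →
      Q (y + z + w) + Q (y + z) = (Q (y + w) + Q y) + (Q (z + w) + Q z) := by
    intro w y z hw
    rw [hQ.2 y z w, hw]
    generalize Q (y + z) = a; generalize Q (y + w) = b; generalize Q (z + w) = c
    generalize Q y = d; generalize Q z = e
    revert a b c d e; decide
  have hQ2 : Quad fun y => Q y + (Q (y + u) + Q y) * (Q (y + v) + Q y) := by
    refine ⟨by simp [hQ.1, hu], fun x y z => ?_⟩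
    simp only [add u _ _ hu, add v _ _ hv]
    rw [hQ.2 x y z]
    generalize Q (x + u) + Q x = a; generalize Q (y + u) + Q y = b; generalize Q (z + u) + Q z = c
    generalize Q (x + v) + Q x = d; generalize Q (y + v) + Q y = e; generalize Q (z + v) + Q z = f
    have two : (2 : ZMod 2) = 0 := rfl
    linear_combination (-(a * d + b * e + c * f)) * two
  have h0 := half _ hQ2
  have key : ∀ y, sg (Q y) + sg (Q (y + u)) + sg (Q (y + v)) + sg (Q (y + (u + v))) =
      2 * sg (Q y + (Q (y + u) + Q y) * (Q (y + v) + Q y)) := by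
    intro y
    rw [← add_assoc, hQ.2 y u v, hu, hv, huv]
    generalize Q y = a; generalize Q (y + u) = b; generalize Q (y + v) = c
    revert a b c; decide
  have h1 := Finset.sum_congr (s₁ := univ) rfl fun y _ => key y
  rw [Finset.sum_add_distrib, Finset.sum_add_distrib, Finset.sum_add_distrib,
    shift (fun y => sg (Q y)) u, shift (fun y => sg (Q y)) v,
    shift (fun y => sg (Q y)) (u + v), ← Finset.mul_sum] at h1
  omega

def kv {n : ℕ} (x : Fin n → ZMod 2) : P n → ZMod 2 := fun p => x p.1.1 * x p.1.2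

def dot {n : ℕ} (h w : P n → ZMod 2) : ZMod 2 := ∑ p, h p * w p

lemma dot_add {n : ℕ} (h w w' : P n → ZMod 2) : dot h (w + w') = dot h w + dot h w' := by
  simp [dot, mul_add, Finset.sum_add_distrib]

lemma kv_single {n : ℕ} (i : Fin n) : kv (Pi.single i (1 : ZMod 2)) = 0 := by
  funext p
  have := p.2
  simp only [kv, Pi.single_apply, Pi.zero_apply]
  split_ifs <;> simp_all

lemma bias {n : ℕ} (h : P n → ZMod 2) : -(2 ^ n : ℤ) ≤ 4 * ∑ x, sg (dot h (kv x)) := by
  by_cases h0 : h = 0
  · subst h0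
    simp [dot, sg]
    have : (0 : ℤ) < 2 ^ n := by positivity
    linarith
  obtain ⟨p, hp⟩ := Function.ne_iff.1 h0
  have hp1 : h p = 1 := by
    revert hp; simp only [Pi.zero_apply]; generalize h p = a; revert a; decide
  have hq : Quad fun x : Fin n → ZMod 2 => dot h (kv x) := by
    refine ⟨by simp [dot, kv], fun x y z => ?_⟩
    simp only [dot, kv, Pi.add_apply, ← Finset.sum_add_distrib]
    refine Finset.sum_congr rfl fun r _ => ?_
    have two : (2 : ZMod 2) = 0 := rfl
    linear_combination (-(h r) * (x r.1.1 * x r.1.2 + y r.1.1 * y r.1.2 + z r.1.1 * z r.1.2)) * two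
  have := quarter _ hq (Pi.single p.1.1 1) (Pi.single p.1.2 1) (by simp [kv_single, dot])
    (by simp [kv_single, dot]) (by
      simp only [dot]
      rw [Finset.sum_eq_single p]
      · have := p.2
        simp [kv, hp1, Pi.single_apply, this.ne, this.ne']
      · intro r _ hr
        have h1 := p.2
        have h2 := r.2
        have h3 : ¬ (r.1.1 = p.1.1 ∧ r.1.2 = p.1.2) := fun e =>
          hr (Subtype.ext (Prod.ext e.1 e.2))
        simp only [kv, Pi.add_apply, Pi.single_apply]
        split_ifs <;> simp_all <;> omega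
      · simp)
  simpa using this

lemma orth {n : ℕ} (w : P n → ZMod 2) :
    ∑ h, sg (dot h w) = if w = 0 then (2 : ℤ) ^ Fintype.card (P n) else 0 := by
  split_ifs with hw
  · subst hw; simp [dot, sg]
  · obtain ⟨p, hp⟩ := Function.ne_iff.1 hw
    refine char_zero (fun h => dot h w) (fun u v => ?_) (Pi.single p 1) ?_
    · simp [dot, add_mul, Finset.sum_add_distrib]
    · simpa [dot, Pi.single_apply] using hp

def ind {n : ℕ} (G : Finset (P n)) : P n → ZMod 2 := fun p => if p ∈ G then 1 else 0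

lemma ind_eq {n : ℕ} (G₁ G₂ : Finset (P n)) (x : Fin n → ZMod 2)
    (h : kv x + (ind G₁ + ind G₂) = 0) :
    symmDiff G₁ G₂ = clique (univ.filter fun i => x i = 1) := by
  ext p
  have := congrFun h p
  simp only [kv, ind, Pi.add_apply, Pi.zero_apply] at this
  simp only [clique, Finset.mem_symmDiff, Finset.mem_filter, Finset.mem_univ, true_and]
  revert this
  generalize x p.1.1 = a; generalize x p.1.2 = b
  by_cases h1 : p ∈ G₁ <;> by_cases h2 : p ∈ G₂ <;> simp only [h1, h2] <;> revert a b <;> decide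

lemma small {n : ℕ} (U : Finset (Fin n)) (h : U.card < 2) : clique U = ∅ := by
  refine Finset.filter_eq_empty_iff.2 fun p _ hp => ?_
  have := Finset.card_le_one.1 (show U.card ≤ 1 by omega) _ hp.1 _ hp.2
  exact p.2.ne this

lemma cnt {n : ℕ} : (univ.filter fun x : Fin n → ZMod 2 => kv x = 0).card ≤ n + 1 := by
  have : (univ.filter fun x : Fin n → ZMod 2 => kv x = 0) ⊆
      insert 0 (univ.image fun i : Fin n => Pi.single i (1 : ZMod 2)) := by
    intro x hx
    have hx' := (Finset.mem_filter.1 hx).2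
    by_cases h0 : x = 0
    · simp [h0]
    obtain ⟨i, hi⟩ := Function.ne_iff.1 h0
    refine Finset.mem_insert_of_mem (Finset.mem_image.2 ⟨i, Finset.mem_univ _, ?_⟩)
    funext j
    simp only [Pi.zero_apply] at hi
    rcases lt_trichotomy i j with h | rfl | h
    · have := congrFun hx' ⟨(i, j), h⟩
      simp only [kv, Pi.zero_apply, mul_eq_zero, hi, false_or] at this
      simp [this, h.ne']
    · simp only [Pi.single_eq_same]
      revert hi; generalize x i = a; revert a; decide
    · have := congrFun hx' ⟨(j, i), h⟩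
      simp only [kv, Pi.zero_apply, mul_eq_zero, hi, or_false] at this
      simp [this, h.ne]
  refine (Finset.card_le_card this).trans ((Finset.card_insert_le _ _).trans ?_)
  have := Finset.card_image_le (s := (univ : Finset (Fin n)))
    (f := fun i : Fin n => (Pi.single i (1 : ZMod 2) : Fin n → ZMod 2))
  simp only [Finset.card_univ, Fintype.card_fin] at this
  omega

lemma cardP (n : ℕ) : Fintype.card (P n) = n.choose 2 := by
  rw [Fintype.card_subtype, ← Finset.univ_product_univ, Finset.card_product_filter_lt]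
  simp

lemma pair {n : ℕ} (F : Finset (Finset (P n))) (hF : IsCode F) (G₁ G₂ : Finset (P n))
    (h1 : G₁ ∈ F) (h2 : G₂ ∈ F) :
    ∑ h, (4 * ∑ x, sg (dot h (kv x)) + 2 ^ n) * (sg (dot h (ind G₁)) * sg (dot h (ind G₂))) ≤
      if G₁ = G₂ then (4 * (n + 1) + 2 ^ n) * (2 : ℤ) ^ Fintype.card (P n) else 0 := by
  have e : ∑ h, (4 * ∑ x, sg (dot h (kv x)) + 2 ^ n) * (sg (dot h (ind G₁)) * sg (dot h (ind G₂)))
      = 4 * ∑ x : Fin n → ZMod 2, ∑ h, sg (dot h (kv x + (ind G₁ + ind G₂))) +
        2 ^ n * ∑ h, sg (dot h (ind G₁ + ind G₂)) := by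
    rw [Finset.sum_comm, Finset.mul_sum, Finset.mul_sum, ← Finset.sum_add_distrib]
    refine Finset.sum_congr rfl fun h _ => ?_
    simp only [dot_add, sg_add, ← Finset.sum_mul]
    ring
  rw [e]
  simp only [orth]
  split_ifs with a b b
  · subst b
    rw [a]
    simp only [add_zero]
    rw [← Finset.sum_filter, Finset.sum_const, nsmul_eq_mul]
    have : ((univ.filter fun x : Fin n → ZMod 2 => kv x = 0).card : ℤ) ≤ n + 1 := by
      exact_mod_cast cnt
    have hp : (0 : ℤ) < 2 ^ Fintype.card (P n) := by positivity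
    nlinarith
  · exfalso
    have := ind_eq G₁ G₂ 0 (by rw [a]; funext p; simp [kv])
    rw [small _ (by simp)] at this
    exact b (symmDiff_eq_bot.1 this)
  · exfalso
    subst b
    exact a (by funext p; simp only [Pi.add_apply, Pi.zero_apply]; exact CharTwo.add_self_eq_zero _)
  · rw [Finset.sum_eq_zero]
    · simp
    · intro x _
      rw [if_neg]
      intro hx
      have := ind_eq G₁ G₂ x hx
      by_cases hc : 2 ≤ (univ.filter fun i => x i = 1).card
      · exact hF G₁ h1 G₂ h2 b _ hc this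
      · rw [small _ (by omega)] at this
        exact b (symmDiff_eq_bot.1 this)

theorem result : ∀ (n : ℕ) (F : Finset (Finset (P n))), IsCode F →
    5 * 2 ^ n * F.card ≤ (2 ^ n + 4 * (n + 1)) * 2 ^ n.choose 2 := by
  intro n F hF
  have h1 : ∑ G₁ ∈ F, ∑ G₂ ∈ F, ∑ h, (4 * ∑ x, sg (dot h (kv x)) + 2 ^ n) *
      (sg (dot h (ind G₁)) * sg (dot h (ind G₂))) ≤
      F.card * ((4 * (n + 1) + 2 ^ n) * (2 : ℤ) ^ Fintype.card (P n)) := by
    refine (Finset.sum_le_sum fun G₁ h1 => Finset.sum_le_sum fun G₂ h2 =>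
      pair F hF G₁ G₂ h1 h2).trans ?_
    rw [Finset.sum_congr rfl fun G₁ h1 => by rw [Finset.sum_ite_eq, if_pos h1]]
    simp
  have h2 : ∑ G₁ ∈ F, ∑ G₂ ∈ F, ∑ h, (4 * ∑ x, sg (dot h (kv x)) + 2 ^ n) *
      (sg (dot h (ind G₁)) * sg (dot h (ind G₂))) =
      ∑ h, (4 * ∑ x, sg (dot h (kv x)) + 2 ^ n) * (∑ G ∈ F, sg (dot h (ind G))) ^ 2 := by
    refine (Finset.sum_congr rfl fun G₁ _ => Finset.sum_comm).trans (Finset.sum_comm.trans ?_)
    refine Finset.sum_congr rfl fun h _ => ?_
    generalize (4 * ∑ x, sg (dot h (kv x)) + 2 ^ n : ℤ) = c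
    rw [sq, Finset.sum_mul_sum]
    simp only [Finset.mul_sum]
  have h3 := Finset.single_le_sum (s := (univ : Finset (P n → ZMod 2)))
    (f := fun h => (4 * ∑ x, sg (dot h (kv x)) + 2 ^ n) * (∑ G ∈ F, sg (dot h (ind G))) ^ 2)
    (fun h _ => mul_nonneg (by have := bias h; omega) (sq_nonneg _)) (Finset.mem_univ 0)
  have h4 : ∀ w : P n → ZMod 2, sg (dot 0 w) = 1 := by intro w; simp [dot, sg]
  simp only [h4, Finset.sum_const, Finset.card_univ, nsmul_eq_mul, mul_one, Fintype.card_fun,
    ZMod.card, Fintype.card_fin] at h3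
  rw [h2, cardP] at h1
  have h5 := h3.trans h1
  rcases Nat.eq_zero_or_pos F.card with h0 | h0
  · simp [h0]
  · have h6 : (0 : ℤ) < F.card := by exact_mod_cast h0
    have h7 : (5 * 2 ^ n * F.card : ℤ) ≤ (2 ^ n + 4 * (n + 1)) * 2 ^ n.choose 2 := by
      refine le_of_mul_le_mul_left ?_ h6
      push_cast at h5
      nlinarith
    exact_mod_cast h7

end Pool.Agent.Results.MP_0ba87f_co.Fifth
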